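import Pool.Agent.W728.LH.Stms

/-! Project LH (helper728), task LH-STEP. -/

set_option autoImplicit false

namespace Pool.Agent.W577.LH

open Polynomial Pool.Agent.W728.LH

section rel
variable {P R : Type} [Field P] [CommRing R] [Algebra P R]

/-- congruence modulo `y` in `C` -/
def Rel (C : Subalgebra P R) (y a b : R) : Prop := ∃ h ∈ C, a - b = y * h

variable {C : Subalgebra P R} {y : R}

lemma Rel.refl (a : R) : Rel C y a a := ⟨0, C.zero_mem, by ring⟩

lemma Rel.add {a b a' b' : R} (h : Rel C y a b) (h' : Rel C y a' b') :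
    Rel C y (a + a') (b + b') := by
  obtain ⟨u, hu, e⟩ := h
  obtain ⟨v, hv, e'⟩ := h'
  exact ⟨u + v, C.add_mem hu hv, by linear_combination e + e'⟩

lemma Rel.mul {a b a' b' : R} (hb : b ∈ C) (ha' : a' ∈ C) (h : Rel C y a b)
    (h' : Rel C y a' b') : Rel C y (a * a') (b * b') := by
  obtain ⟨u, hu, e⟩ := h
  obtain ⟨v, hv, e'⟩ := h'
  refine ⟨u * a' + b * v, C.add_mem (C.mul_mem hu ha') (C.mul_mem hb hv), ?_⟩
  linear_combination a' * e + b * e'

lemma Rel.pow {a b : R} (ha : a ∈ C) (hb : b ∈ C) (h : Rel C y a b) (n : ℕ) :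
    Rel C y (a ^ n) (b ^ n) := by
  induction n with
  | zero =>
    rw [pow_zero, pow_zero]
    exact Rel.refl 1
  | succ n ih =>
    rw [pow_succ, pow_succ]
    exact Rel.mul (C.pow_mem hb n) ha ih h

variable {B : Subalgebra P R}

lemma mem_eval₂ (hBC : B ≤ C) {x : R} (hx : x ∈ C) (q : B[X]) :
    eval₂ (algebraMap B R) x q ∈ C := by
  induction q using Polynomial.induction_on' with
  | add p q hp hq =>
    rw [eval₂_add]
    exact C.add_mem hp hq
  | monomial n a =>
    rw [eval₂_monomial]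
    exact C.mul_mem (hBC a.2) (C.pow_mem hx n)

lemma rel_eval (hBC : B ≤ C) {x : R} (hx : x ∈ C) (f : B) (q : B[X]) :
    Rel C (x - algebraMap B R f) (eval₂ (algebraMap B R) x q) (algebraMap B R (q.eval f)) := by
  induction q using Polynomial.induction_on' with
  | add p q hp hq =>
    rw [eval₂_add, eval_add, map_add]
    exact hp.add hq
  | monomial n a =>
    rw [eval₂_monomial, eval_monomial, map_mul, map_pow]
    have h1 : Rel C (x - algebraMap B R f) x (algebraMap B R f) := ⟨1, C.one_mem, by ring⟩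
    exact Rel.mul (hBC a.2) (C.pow_mem hx n) (Rel.refl _) (h1.pow hx (hBC f.2) n)

lemma rel_Q (hBC : B ≤ C) {x g : R} (hx : x ∈ C) (hg : g ∈ C) (f d : B)
    (h : Rel C (x - algebraMap B R f) g (algebraMap B R d)) (Q : B[X][X]) :
    Rel C (x - algebraMap B R f) (eval g (Q.map (eval₂RingHom (algebraMap B R) x)))
      (algebraMap B R (Q.eval₂ (evalRingHom f) d)) := by
  induction Q using Polynomial.induction_on' with
  | add p q hp hq =>
    rw [Polynomial.map_add, eval_add, eval₂_add, map_add]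
    exact hp.add hq
  | monomial n a =>
    rw [map_monomial, eval_monomial, eval₂_monomial, map_mul, map_pow, coe_eval₂RingHom,
      coe_evalRingHom]
    exact Rel.mul (hBC (a.eval f).2) (C.pow_mem hg n) (rel_eval hBC hx f a)
      (h.pow hg (hBC d.2) n)

end rel

section deg
variable {P R : Type} [Field P] [CommRing R] [IsDomain R] [Algebra P R] {deg : R → ℕ}

/-- the properties of the degree -/
structure Dg (deg : R → ℕ) : Prop where
  z : deg 0 = 0
  m : ∀ u v : R, u ≠ 0 → v ≠ 0 → deg (u * v) = deg u + deg v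
  a : ∀ u v : R, deg (u + v) ≤ max (deg u) (deg v)
  n : ∀ u : R, deg (-u) = deg u

lemma Dg.one (H : Dg deg) : deg 1 = 0 := by
  have := H.m 1 1 one_ne_zero one_ne_zero
  rw [mul_one] at this
  omega

lemma Dg.mul_le (H : Dg deg) (u v : R) : deg (u * v) ≤ deg u + deg v := by
  by_cases hu : u = 0
  · rw [hu, zero_mul, H.z]
    omega
  by_cases hv : v = 0
  · rw [hv, mul_zero, H.z]
    omega
  exact (H.m u v hu hv).le

lemma Dg.pow (H : Dg deg) {u : R} (hu : u ≠ 0) (n : ℕ) : deg (u ^ n) = n * deg u := by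
  induction n with
  | zero => rw [pow_zero, H.one, zero_mul]
  | succ n ih => rw [pow_succ, H.m _ _ (pow_ne_zero n hu) hu, ih, Nat.succ_mul]

lemma Dg.pow_le (H : Dg deg) (u : R) (n : ℕ) : deg (u ^ n) ≤ n * deg u := by
  by_cases hu : u = 0
  · rcases n with _ | n
    · rw [pow_zero, H.one]
      omega
    · rw [hu, zero_pow (Nat.succ_ne_zero n), H.z]
      omega
  · exact (H.pow hu n).le

lemma Dg.sum_le (H : Dg deg) {ι : Type} (s : Finset ι) (u : ι → R) (N : ℕ)
    (h : ∀ i ∈ s, deg (u i) ≤ N) : deg (∑ i ∈ s, u i) ≤ N := by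
  classical
  induction s using Finset.induction_on with
  | empty =>
    rw [Finset.sum_empty, H.z]
    omega
  | insert i s hi ih =>
    rw [Finset.sum_insert hi]
    exact (H.a _ _).trans (max_le (h i (Finset.mem_insert_self i s))
      (ih fun j hj => h j (Finset.mem_insert_of_mem hj)))

lemma Dg.sub_le (H : Dg deg) (u v : R) : deg (u - v) ≤ max (deg u) (deg v) := by
  rw [sub_eq_add_neg, ← H.n v]
  exact H.a u (-v)

variable {B : Subalgebra P R}

lemma inj : Function.Injective (algebraMap B R) := Subtype.coe_injective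

lemma deg_eval_le (H : Dg deg) (q : B[X]) (f : B) (D r : ℕ)
    (hD : ∀ i, deg (algebraMap B R (q.coeff i)) ≤ D) (hr : q.natDegree ≤ r) :
    deg (algebraMap B R (q.eval f)) ≤ D + r * deg (algebraMap B R f) := by
  rw [eval_eq_sum_range' (Nat.lt_succ_of_le hr), map_sum]
  refine H.sum_le _ _ _ fun i hi => ?_
  rw [map_mul, map_pow]
  have h1 := H.mul_le (algebraMap B R (q.coeff i)) (algebraMap B R f ^ i)
  have h2 := H.pow_le (algebraMap B R f) i
  have h3 : i * deg (algebraMap B R f) ≤ r * deg (algebraMap B R f) :=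
    Nat.mul_le_mul_right _ (Nat.lt_succ_iff.1 (Finset.mem_range.1 hi))
  have h4 := hD i
  omega

lemma eval_ne_zero (H : Dg deg) (q : B[X]) (hq : q ≠ 0) (f : B) (D : ℕ)
    (hD : ∀ i, deg (algebraMap B R (q.coeff i)) ≤ D) (hf : D < deg (algebraMap B R f)) :
    q.eval f ≠ 0 := by
  intro h0
  have hf0 : algebraMap B R f ≠ 0 := by
    intro h
    rw [h, H.z] at hf
    omega
  have hlc : algebraMap B R (q.coeff q.natDegree) ≠ 0 := by
    intro h
    have h1 : q.coeff q.natDegree = 0 := inj (by rw [h, map_zero])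
    exact hq (leadingCoeff_eq_zero.1 h1)
  have h1 := congrArg (algebraMap B R) h0
  rw [eval_eq_sum_range, map_sum, Finset.sum_range_succ, map_zero] at h1
  rcases hr : q.natDegree with _ | r
  · rw [hr] at h1 hlc
    rw [Finset.sum_range_zero, zero_add, pow_zero, mul_one] at h1
    exact hlc h1
  · rw [hr] at h1 hlc
    have h2 : algebraMap B R (q.coeff (r + 1) * f ^ (r + 1)) =
        -∑ i ∈ Finset.range (r + 1), algebraMap B R (q.coeff i * f ^ i) := by
      linear_combination h1
    have h3 : deg (-∑ i ∈ Finset.range (r + 1), algebraMap B R (q.coeff i * f ^ i)) ≤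
        D + r * deg (algebraMap B R f) := by
      rw [H.n]
      refine H.sum_le _ _ _ fun i hi => ?_
      rw [map_mul, map_pow]
      have h1 := H.mul_le (algebraMap B R (q.coeff i)) (algebraMap B R f ^ i)
      have h2 := H.pow_le (algebraMap B R f) i
      have h3 : i * deg (algebraMap B R f) ≤ r * deg (algebraMap B R f) :=
        Nat.mul_le_mul_right _ (Nat.lt_succ_iff.1 (Finset.mem_range.1 hi))
      have h4 := hD i
      omega
    rw [← h2, map_mul, map_pow, H.m _ _ hlc (pow_ne_zero _ hf0), H.pow hf0, Nat.succ_mul] at h3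
    omega

lemma bound_d (H : Dg deg) (Q : B[X][X]) (hQ : Q ≠ 0) (f d : B) (D r : ℕ)
    (h0 : Q.eval₂ (evalRingHom f) d = 0)
    (hD : ∀ j i, deg (algebraMap B R ((Q.coeff j).coeff i)) ≤ D)
    (hr : ∀ j, (Q.coeff j).natDegree ≤ r) (hf : D < deg (algebraMap B R f)) :
    deg (algebraMap B R d) ≤ D + r * deg (algebraMap B R f) := by
  by_cases hd : algebraMap B R d = 0
  · rw [hd, H.z]
    omega
  have hlc : Q.coeff Q.natDegree ≠ 0 := fun h => hQ (leadingCoeff_eq_zero.1 h)
  have hlc' := eval_ne_zero H _ hlc f D (hD _) hf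
  have hlc'' : algebraMap B R ((Q.coeff Q.natDegree).eval f) ≠ 0 := by
    intro h
    exact hlc' (inj (by rw [h, map_zero]))
  have h1 := congrArg (algebraMap B R) h0
  rw [eval₂_eq_sum_range, map_sum, Finset.sum_range_succ, map_zero] at h1
  simp only [coe_evalRingHom] at h1
  rcases he : Q.natDegree with _ | e
  · rw [he] at h1 hlc''
    rw [Finset.sum_range_zero, zero_add, pow_zero, mul_one] at h1
    exact absurd h1 hlc''
  · rw [he] at h1 hlc''
    have h2 : algebraMap B R ((Q.coeff (e + 1)).eval f * d ^ (e + 1)) =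
        -∑ i ∈ Finset.range (e + 1), algebraMap B R ((Q.coeff i).eval f * d ^ i) := by
      linear_combination h1
    have h3 : deg (-∑ i ∈ Finset.range (e + 1), algebraMap B R ((Q.coeff i).eval f * d ^ i)) ≤
        D + r * deg (algebraMap B R f) + e * deg (algebraMap B R d) := by
      rw [H.n]
      refine H.sum_le _ _ _ fun i hi => ?_
      rw [map_mul, map_pow]
      have h1 := H.mul_le (algebraMap B R ((Q.coeff i).eval f)) (algebraMap B R d ^ i)
      have h2 := H.pow_le (algebraMap B R d) i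
      have h3 : i * deg (algebraMap B R d) ≤ e * deg (algebraMap B R d) :=
        Nat.mul_le_mul_right _ (Nat.lt_succ_iff.1 (Finset.mem_range.1 hi))
      have h4 := deg_eval_le H (Q.coeff i) f D r (hD i) (hr i)
      omega
    rw [← h2, map_mul, map_pow, H.m _ _ hlc'' (pow_ne_zero _ hd), H.pow hd, Nat.succ_mul] at h3
    omega

end deg

lemma le_sum_range (u : ℕ → ℕ) (N : ℕ) (h : ∀ i, N < i → u i = 0) (i : ℕ) :
    u i ≤ ∑ i ∈ Finset.range (N + 1), u i := by
  by_cases hi : i ≤ N
  · exact Finset.single_le_sum (f := u) (fun _ _ => Nat.zero_le _)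
      (Finset.mem_range.2 (Nat.lt_succ_of_le hi))
  · rw [h i (by omega)]
    exact Nat.zero_le _

section
variable {P R : Type} [Field P] [CommRing R] [IsDomain R] [Algebra P R] {deg : R → ℕ}
variable {B : Subalgebra P R}

lemma exists_bound (H : Dg deg) (p : B[X]) :
    ∃ A : ℕ, ∀ i, deg (algebraMap B R (p.coeff i)) ≤ A := by
  refine ⟨_, le_sum_range (fun i => deg (algebraMap B R (p.coeff i))) p.natDegree ?_⟩
  intro i hi
  rw [coeff_eq_zero_of_natDegree_lt hi, map_zero, H.z]

lemma exists_bound2 (H : Dg deg) (Q : B[X][X]) :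
    ∃ D r : ℕ, (∀ j i, deg (algebraMap B R ((Q.coeff j).coeff i)) ≤ D) ∧
      ∀ j, (Q.coeff j).natDegree ≤ r := by
  choose A hA using fun j => exists_bound H (Q.coeff j)
  let A' : ℕ → ℕ := fun j => if j ≤ Q.natDegree then A j else 0
  refine ⟨∑ j ∈ Finset.range (Q.natDegree + 1), A' j,
    ∑ j ∈ Finset.range (Q.natDegree + 1), (Q.coeff j).natDegree, ?_, ?_⟩
  · intro j i
    have h1 := le_sum_range A' Q.natDegree (fun i hi => if_neg (by omega)) j
    refine le_trans ?_ h1
    by_cases hj : j ≤ Q.natDegree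
    · simp only [A', if_pos hj]
      exact hA j i
    · rw [coeff_eq_zero_of_natDegree_lt (by omega : Q.natDegree < j), coeff_zero, map_zero, H.z]
      exact Nat.zero_le _
  · intro j
    refine le_sum_range (fun j => (Q.coeff j).natDegree) Q.natDegree ?_ j
    intro i hi
    rw [coeff_eq_zero_of_natDegree_lt hi, natDegree_zero]

end

theorem t_STEP : STEP_stmt := by
  intro P R _ _ _ _ deg d0 dm da dn B C hBC x hx F hF hF0 hFu hE hU g hg hQ
  obtain ⟨Q, hQ0, hQg⟩ := hQ
  have H : Dg deg := ⟨d0, dm, da, dn⟩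
  obtain ⟨D, r, hD, hr⟩ := exists_bound2 H Q
  -- the expansion of g
  have hexp : ∀ n : ℕ, ∃ (p : B[X]) (g' : R), p.natDegree ≤ n ∧ g' ∈ C ∧
      g = eval₂ (algebraMap B R) x p + x ^ (n + 1) * g' := by
    intro n
    induction n with
    | zero =>
      obtain ⟨d, hd, h, hh, e⟩ := hE 0 hF0 g hg
      refine ⟨Polynomial.C ⟨d, hd⟩, h, by rw [natDegree_C], hh, ?_⟩
      rw [eval₂_C, e, sub_zero, zero_add, pow_one]
      rfl
    | succ n ih =>
      obtain ⟨p, g', hp, hg', e⟩ := ih
      obtain ⟨d, hd, h, hh, e'⟩ := hE 0 hF0 g' hg'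
      refine ⟨p + monomial (n + 1) ⟨d, hd⟩, h, ?_, hh, ?_⟩
      · refine (natDegree_add_le _ _).trans (max_le (by omega) (natDegree_monomial_le _))
      · rw [eval₂_add, eval₂_monomial]
        have h1 : (algebraMap B R) ⟨d, hd⟩ = d := rfl
        rw [h1]
        rw [sub_zero] at e'
        linear_combination e + x ^ (n + 1) * e'
  obtain ⟨p, g', hp, hg', e⟩ := hexp r
  obtain ⟨A, hA⟩ := exists_bound H p
  obtain ⟨f, hfF, hf⟩ := hFu (D + A + deg x + deg g' + 1)
  obtain ⟨d', hd', h', hh', e'⟩ := hE f hfF g' hg'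
  let fB : B := ⟨f, hF hfF⟩
  let dB : B := ⟨d', hd'⟩
  have hfB : algebraMap B R fB = f := rfl
  have hdB : algebraMap B R dB = d' := rfl
  have hfC : f ∈ C := hBC (hF hfF)
  -- the value d
  have hrel : Rel C (x - algebraMap B R fB) g
      (algebraMap B R (p.eval fB + fB ^ (r + 1) * dB)) := by
    rw [map_add, map_mul, map_pow]
    rw [show g = eval₂ (algebraMap B R) x p + x ^ (r + 1) * g' from e]
    refine (rel_eval hBC hx fB p).add ?_
    have hxf : Rel C (x - algebraMap B R fB) x (algebraMap B R fB) :=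
      ⟨1, C.one_mem, by rw [mul_one]⟩
    refine Rel.mul (C.pow_mem hfC _) hg' (Rel.pow hx hfC hxf _) ?_
    exact ⟨h', hh', by rw [hdB, hfB, e']; ring⟩
  have hz : Q.eval₂ (evalRingHom fB) (p.eval fB + fB ^ (r + 1) * dB) = 0 := by
    obtain ⟨h, hh, e1⟩ := rel_Q hBC hx hg fB _ hrel Q
    rw [hQg, zero_sub] at e1
    have h2 : h = 0 := by
      refine hU f hfF h hh ?_
      rw [← hfB, ← e1]
      exact B.neg_mem (Q.eval₂ (evalRingHom fB) (p.eval fB + fB ^ (r + 1) * dB)).2
    rw [h2, mul_zero, neg_eq_zero] at e1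
    exact inj (by rw [e1, map_zero])
  have hdeg := bound_d H Q hQ0 fB _ D r hz hD hr (by rw [hfB]; omega)
  have hf0 : f ≠ 0 := by
    intro h
    rw [h, H.z] at hf
    omega
  have hd0 : d' = 0 := by
    by_contra hne
    have h1 := H.sub_le (algebraMap B R (p.eval fB + fB ^ (r + 1) * dB))
      (algebraMap B R (p.eval fB))
    have h2 : algebraMap B R (p.eval fB + fB ^ (r + 1) * dB) - algebraMap B R (p.eval fB) =
        f ^ (r + 1) * d' := by
      rw [map_add, map_mul, map_pow, hfB, hdB]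
      ring
    rw [h2, H.m _ _ (pow_ne_zero _ hf0) hne, H.pow hf0, Nat.succ_mul] at h1
    have h3 := deg_eval_le H p fB A r hA hp
    rw [hfB] at h3 hdeg
    rcases le_max_iff.1 h1 with h4 | h4
    · omega
    · omega
  have hg0 : g' = 0 := by
    by_contra hne
    rw [hd0, zero_add] at e'
    have h1 : x - f ≠ 0 := by
      intro h
      rw [h, zero_mul] at e'
      exact hne e'
    have h2 : h' ≠ 0 := by
      intro h
      rw [h, mul_zero] at e'
      exact hne e'
    have h3 := H.m _ _ h1 h2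
    rw [← e'] at h3
    have h4 := H.sub_le x (x - f)
    have h5 : x - (x - f) = f := by ring
    rw [h5] at h4
    rcases le_max_iff.1 h4 with h6 | h6
    · omega
    · omega
  refine ⟨p, ?_⟩
  rw [hg0, mul_zero, add_zero] at e
  exact e

end Pool.Agent.W577.LH
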